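import Mathlib

/-!
# Covering entropy equals the compatible-measure bound

For every probability space `(Ω, π)`, every system `I` of measurable sets and every `0 < λ < 1`,
`H_full ≤ H_cnt ≤ lower covering entropy ≤ upper covering entropy`; together with the known
inequality `upper covering entropy ≤ H_full` all these quantities are equal.

Proof. If `n` boxes cover measure `1 - λ` of `Ω^ℓ` and `F` counts the boxes containing a point,
then `1 - λ ≤ E F^t ≤ n^t (sup_a E a^t)^ℓ` over the convex combinations `a`; so for every `t` there is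
a countable convex combination with `E a^t ≥ exp(-t h)`, `h` slightly above the lower entropy.
By Jensen the same `a` works for all exponents `s ∈ [t, 1]`, and these sets of `a`'s are midpoint
convex and decreasing; near-minimisers of the `L²`-norm converge in `L²` and (subsequence) a.e. to a
`b` with `E b^s ≥ exp(-s h)` for all `s ∈ (0, 1]`, whence `φ(b) ≤ h` by Fatou. Finally a mixture
`∑ w_j a_(k_j)` with quickly growing indices `k_j` has `φ ≤ φ(b) + η`.
-/

set_option autoImplicit false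

open MeasureTheory Filter Topology
open scoped ENNReal

namespace Pool.Agent.Results.MP_87c4bd_co.CoveringEntropy

universe u

variable {Ω : Type u} [MeasurableSpace Ω]

/-- `N_ℓ(I, π, λ)`: the least number of `ℓ`-dimensional `I`-boxes whose union has
`π^ℓ`-measure at least `1 - λ` (`⊤` if no finite number suffices). -/
noncomputable def N (I : Set (Set Ω)) (π : Measure Ω) (lam : ℝ) (ℓ : ℕ) : ℕ∞ :=
  ⨅ (n : ℕ) (_ : ∃ B : Fin n → Fin ℓ → Set Ω, (∀ k i, B k i ∈ I) ∧
    ENNReal.ofReal (1 - lam) ≤ (Measure.pi fun _ : Fin ℓ => π) (⋃ k, Set.univ.pi (B k))), (n : ℕ∞)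

/-- The sequence `(1/ℓ) log N_ℓ(I, π, λ)`. -/
noncomputable def rate (I : Set (Set Ω)) (π : Measure Ω) (lam : ℝ) (ℓ : ℕ) : EReal :=
  ENNReal.log ((N I π lam ℓ : ℕ∞) : ℝ≥0∞) / ((ℓ : ℝ) : EReal)

/-- The upper covering entropy. -/
noncomputable def Hup (I : Set (Set Ω)) (π : Measure Ω) (lam : ℝ) : EReal :=
  limsup (rate I π lam) atTop

/-- The lower covering entropy. -/
noncomputable def Hlow (I : Set (Set Ω)) (π : Measure Ω) (lam : ℝ) : EReal :=
  liminf (rate I π lam) atTop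

/-- `- log y` as an element of `[0, ∞]`, for `y ∈ [0, 1]`. -/
noncomputable def nl (y : ℝ≥0∞) : ℝ≥0∞ := (-ENNReal.log y).toENNReal

/-- `φ_π(a) = ∫ - log a dπ`. -/
noncomputable def phi (π : Measure Ω) (a : Ω → ℝ≥0∞) : ℝ≥0∞ := ∫⁻ x, nl (a x) ∂π

/-- The countable convex combination `∑_J q(J) 1_J`. -/
noncomputable def avg (I : Set (Set Ω)) (q : PMF I) (x : Ω) : ℝ≥0∞ :=
  ∑' J : I, q J * (J : Set Ω).indicator 1 x

/-- The functions `a(x) = β {J ∈ I : x ∈ J}` for the compatible probability measures `β`. -/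
def VPfull (I : Set (Set Ω)) (π : Measure Ω) : Set (Ω → ℝ≥0∞) :=
  {a | ∃ (_ : MeasurableSpace I) (β : Measure I), IsProbabilityMeasure β ∧
    NullMeasurableSet {p : I × Ω | p.2 ∈ (p.1 : Set Ω)} (β.prod π) ∧
    ∀ x, a x = β {J : I | x ∈ (J : Set Ω)}}

/-- `H_full`: the infimum of `φ_π` over `VPfull`. -/
noncomputable def Hfull (I : Set (Set Ω)) (π : Measure Ω) : ℝ≥0∞ := ⨅ a ∈ VPfull I π, phi π a

/-- `H_cnt`: the infimum of `φ_π` over the countable convex combinations. -/
noncomputable def Hcnt (I : Set (Set Ω)) (π : Measure Ω) : ℝ≥0∞ := ⨅ q : PMF I, phi π (avg I q)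

/-! ### The function `nl` -/

lemma nl_anti : Antitone nl := by
  intro x y h
  unfold nl
  apply EReal.toENNReal_le_toENNReal
  exact EReal.neg_le_neg_iff.2 (ENNReal.log_monotone h)

lemma nl_zero : nl 0 = ⊤ := by simp [nl]

lemma nl_one : nl 1 = 0 := by simp [nl]

lemma nl_mul (x y : ℝ≥0∞) (hx : x ≤ 1) (hy : y ≤ 1) : nl (x * y) ≤ nl x + nl y := by
  unfold nl
  have hx' : 0 ≤ -ENNReal.log x := by simpa using hx
  have hy' : 0 ≤ -ENNReal.log y := by simpa using hy
  rw [← EReal.toENNReal_add hx' hy']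
  apply EReal.toENNReal_le_toENNReal
  rw [ENNReal.log_mul_add, EReal.neg_add]
  · exact le_of_eq (sub_eq_add_neg _ _)
  · right
    intro h
    rw [h] at hy'
    simp at hy'
  · left
    intro h
    rw [h] at hx'
    simp at hx'

lemma nl_ofReal {r : ℝ} (hr : 0 < r) : nl (ENNReal.ofReal r) = ENNReal.ofReal (-Real.log r) := by
  unfold nl
  rw [ENNReal.log_ofReal_of_pos hr, ← EReal.coe_neg, EReal.toENNReal_of_ne_top (EReal.coe_ne_top _)]
  simp

/-! ### Countable convex combinations -/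

lemma ind_le_one (J : Set Ω) (x : Ω) : J.indicator (1 : Ω → ℝ≥0∞) x ≤ 1 := by
  by_cases h : x ∈ J <;> simp [h]

lemma avg_le_one (I : Set (Set Ω)) (q : PMF I) (x : Ω) : avg I q x ≤ 1 := by
  calc avg I q x ≤ ∑' J : I, q J := ENNReal.tsum_le_tsum fun J =>
        mul_le_of_le_one_right' (ind_le_one _ x)
    _ = 1 := q.tsum_coe

lemma measurable_avg (I : Set (Set Ω)) (hI : ∀ J ∈ I, MeasurableSet J) (q : PMF I) :
    Measurable (avg I q) := by
  have : avg I q = fun x => ∑' J : q.support, q J * ((J : I) : Set Ω).indicator 1 x := by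
    funext x
    unfold avg
    refine (tsum_subtype_eq_of_support_subset (f := fun J : I => q J * (J : Set Ω).indicator 1 x)
      (s := q.support) ?_).symm
    intro J hJ
    rw [Function.mem_support] at hJ
    rw [PMF.mem_support_iff]
    intro h0
    apply hJ
    simp [h0]
  rw [this]
  haveI : Countable q.support := q.support_countable.to_subtype
  refine Measurable.tsum fun J => ?_
  exact Measurable.const_mul (measurable_one.indicator (hI _ (J : I).2)) _

lemma avg_bind {ι : Type*} (I : Set (Set Ω)) (p : PMF ι) (q : ι → PMF I) (x : Ω) :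
    avg I (p.bind q) x = ∑' i, p i * avg I (q i) x := by
  unfold avg
  simp only [PMF.bind_apply, ← ENNReal.tsum_mul_left, ← ENNReal.tsum_mul_right]
  rw [ENNReal.tsum_comm]
  simp only [mul_assoc]

lemma avg_pure (I : Set (Set Ω)) (J : I) (x : Ω) :
    avg I (PMF.pure J) x = (J : Set Ω).indicator 1 x := by
  unfold avg
  rw [tsum_eq_single J]
  · simp
  · intro K hK
    simp [PMF.pure_apply, hK]

lemma avg_mid (I : Set (Set Ω)) (q q' : PMF I) :
    ∃ r : PMF I, ∀ x, avg I r x = (avg I q x + avg I q' x) / 2 := by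
  refine ⟨(PMF.uniformOfFintype Bool).bind (fun b => cond b q q'), fun x => ?_⟩
  rw [avg_bind, tsum_fintype, Fintype.sum_bool]
  simp only [PMF.uniformOfFintype_apply, Fintype.card_bool, cond_true, cond_false]
  rw [div_eq_mul_inv, add_mul]
  simp [mul_comm]

/-! ### Exponential moments of the covering function -/

lemma weighted_le (I : Set (Set Ω)) (π : Measure Ω) {t : ℝ} (ht : 0 < t)
    {S : ℝ≥0∞} (hS : ∀ q : PMF I, ∫⁻ x, (avg I q x) ^ t ∂π ≤ S) {n : ℕ} (J : Fin n → I)
    (w : Fin n → ℝ≥0∞) (hw : ∀ k, w k ≠ ∞) :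
    ∫⁻ x, (∑ k, w k * (J k : Set Ω).indicator 1 x) ^ t ∂π ≤ (∑ k, w k) ^ t * S := by
  by_cases h0 : ∑' k, w k = 0
  · have h1 : ∀ k, w k = 0 := by simpa using h0
    simp [h1, ht]
  have hT : ∑' k, w k ≠ ∞ := by
    rw [tsum_fintype]
    exact ENNReal.sum_ne_top.2 fun k _ => hw k
  set p : PMF (Fin n) := PMF.normalize w h0 hT with hp
  have hav : ∀ x, ∑ k, w k * (J k : Set Ω).indicator 1 x
      = (∑ k, w k) * avg I (p.bind fun k => PMF.pure (J k)) x := by
    intro x
    rw [avg_bind]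
    simp only [avg_pure, hp, PMF.normalize_apply]
    rw [tsum_fintype (L := .unconditional (Fin n)), Finset.mul_sum]
    refine Finset.sum_congr rfl fun k _ => ?_
    rw [tsum_fintype] at h0 hT ⊢
    calc w k * (J k : Set Ω).indicator 1 x
        = ((∑ k, w k) * (∑ k, w k)⁻¹) * (w k * (J k : Set Ω).indicator 1 x) := by
          rw [ENNReal.mul_inv_cancel h0 hT, one_mul]
      _ = _ := by ring
  simp only [hav]
  have hr : ∀ x, ((∑ k, w k) * avg I (p.bind fun k => PMF.pure (J k)) x) ^ t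
      = (∑ k, w k) ^ t * (avg I (p.bind fun k => PMF.pure (J k)) x) ^ t := fun x =>
    ENNReal.mul_rpow_of_nonneg _ _ ht.le
  simp only [hr]
  rw [lintegral_const_mul' _ _ (ENNReal.rpow_ne_top_of_nonneg ht.le
    (by rw [tsum_fintype] at hT; exact hT))]
  gcongr
  exact hS _

lemma expmom (I : Set (Set Ω)) (hI : ∀ J ∈ I, MeasurableSet J) (π : Measure Ω)
    [IsProbabilityMeasure π] {t : ℝ} (ht : 0 < t)
    {S : ℝ≥0∞} (hS : ∀ q : PMF I, ∫⁻ x, (avg I q x) ^ t ∂π ≤ S) {n : ℕ} :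
    ∀ (ℓ : ℕ) (B : Fin n → Fin ℓ → I) (w : Fin n → ℝ≥0∞), (∀ k, w k ≠ ∞) →
      ∫⁻ x, (∑ k, w k * ∏ i, (B k i : Set Ω).indicator 1 (x i)) ^ t ∂(Measure.pi fun _ : Fin ℓ => π)
        ≤ (∑ k, w k) ^ t * S ^ ℓ := by
  intro ℓ
  induction ℓ with
  | zero =>
    intro B w hw
    simp
  | succ ℓ ih =>
    intro B w hw
    have hmp := (measurePreserving_piFinSuccAbove (fun _ : Fin (ℓ + 1) => π) 0).symm
    rw [← hmp.lintegral_comp_emb (MeasurableEquiv.measurableEmbedding _)]
    have hmeas : Measurable fun p : Ω × (Fin ℓ → Ω) =>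
        (∑ k, w k * ((B k 0 : Set Ω).indicator 1 p.1 *
          ∏ i : Fin ℓ, (B k i.succ : Set Ω).indicator 1 (p.2 i))) ^ t := by
      refine Measurable.pow_const ?_ _
      refine Finset.measurable_sum _ fun k _ => ?_
      refine Measurable.const_mul (Measurable.mul ?_ ?_) _
      · exact (measurable_one.indicator (hI _ (B k 0).2)).comp measurable_fst
      · refine Finset.measurable_prod _ fun i _ => ?_
        exact (measurable_one.indicator (hI _ (B k i.succ).2)).comp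
          ((measurable_pi_apply i).comp measurable_snd)
    have heq : ∀ p : Ω × (Fin ℓ → Ω),
        (∑ k, w k * ∏ i, (B k i : Set Ω).indicator (1 : Ω → ℝ≥0∞)
          ((MeasurableEquiv.piFinSuccAbove (fun _ : Fin (ℓ + 1) => Ω) 0).symm p i)) ^ t =
        (∑ k, w k * ((B k 0 : Set Ω).indicator 1 p.1 *
          ∏ i : Fin ℓ, (B k i.succ : Set Ω).indicator 1 (p.2 i))) ^ t := by
      intro p
      simp [Fin.prod_univ_succ, MeasurableEquiv.piFinSuccAbove]
    simp only [heq]
    rw [lintegral_prod _ hmeas.aemeasurable]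
    calc ∫⁻ x, ∫⁻ y : Fin ℓ → Ω, (∑ k, w k * ((B k 0 : Set Ω).indicator 1 x *
          ∏ i : Fin ℓ, (B k i.succ : Set Ω).indicator 1 (y i))) ^ t
            ∂(Measure.pi fun _ : Fin ℓ => π) ∂π
        ≤ ∫⁻ x, (∑ k, w k * (B k 0 : Set Ω).indicator 1 x) ^ t * S ^ ℓ ∂π := by
          refine lintegral_mono fun x => ?_
          have h := ih (fun k i => B k i.succ) (fun k => w k * (B k 0 : Set Ω).indicator 1 x)
            (fun k => ENNReal.mul_ne_top (hw k) (ne_top_of_le_ne_top ENNReal.one_ne_top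
              (ind_le_one _ x)))
          refine le_trans (le_of_eq ?_) h
          refine lintegral_congr fun y => ?_
          simp only [mul_assoc]
      _ = (∫⁻ x, (∑ k, w k * (B k 0 : Set Ω).indicator 1 x) ^ t ∂π) * S ^ ℓ := by
          refine lintegral_mul_const _ ?_
          refine Measurable.pow_const ?_ _
          refine Finset.measurable_sum _ fun k _ => ?_
          exact Measurable.const_mul (measurable_one.indicator (hI _ (B k 0).2)) _
      _ ≤ ((∑ k, w k) ^ t * S) * S ^ ℓ := by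
          gcongr
          exact weighted_le I π ht hS _ w hw
      _ = (∑ k, w k) ^ t * S ^ (ℓ + 1) := by rw [mul_assoc, pow_succ']

/-- If `n` boxes cover measure `1 - λ`, then `1 - λ ≤ n^t S^ℓ`. -/
lemma cover_bound (I : Set (Set Ω)) (hI : ∀ J ∈ I, MeasurableSet J) (π : Measure Ω)
    [IsProbabilityMeasure π] {t : ℝ} (ht : 0 < t)
    {S : ℝ≥0∞} (hS : ∀ q : PMF I, ∫⁻ x, (avg I q x) ^ t ∂π ≤ S) {n ℓ : ℕ}
    (B : Fin n → Fin ℓ → Set Ω) (hB : ∀ k i, B k i ∈ I) :
    (Measure.pi fun _ : Fin ℓ => π) (⋃ k, Set.univ.pi (B k)) ≤ (n : ℝ≥0∞) ^ t * S ^ ℓ := by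
  have hmU : MeasurableSet (⋃ k, Set.univ.pi (B k)) :=
    MeasurableSet.iUnion fun k => MeasurableSet.univ_pi fun i => hI _ (hB k i)
  have h := expmom I hI π ht hS ℓ (fun k i => ⟨B k i, hB k i⟩) (fun _ => 1) (by simp)
  have hsum : ∑ k : Fin n, (1 : ℝ≥0∞) = n := by simp
  rw [hsum] at h
  refine le_trans ?_ h
  rw [← lintegral_indicator_one hmU]
  refine lintegral_mono fun x => ?_
  by_cases hx : x ∈ ⋃ k, Set.univ.pi (B k)
  · rw [Set.indicator_of_mem hx, Pi.one_apply]
    obtain ⟨k, hk⟩ := Set.mem_iUnion.1 hx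
    have h1 : (1 : ℝ≥0∞) ≤ ∑ k, 1 * ∏ i, (B k i).indicator (1 : Ω → ℝ≥0∞) (x i) := by
      refine le_trans ?_ (Finset.single_le_sum (fun _ _ => zero_le) (Finset.mem_univ k))
      rw [one_mul]
      refine le_of_eq (Finset.prod_eq_one fun i _ => ?_).symm
      rw [Set.indicator_of_mem (hk i (Set.mem_univ i))]
      rfl
    calc (1 : ℝ≥0∞) = 1 ^ t := (ENNReal.one_rpow t).symm
      _ ≤ _ := ENNReal.rpow_le_rpow h1 ht.le
  · rw [Set.indicator_of_notMem hx]
    exact zero_le

/-! ### Lower bounds for the exponential moments -/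

lemma Splus_bound (I : Set (Set Ω)) (hI : ∀ J ∈ I, MeasurableSet J) (π : Measure Ω)
    [IsProbabilityMeasure π] {lam : ℝ} (hlam : lam < 1) {h : ℝ}
    (hh : Hlow I π lam < (h : EReal)) {t : ℝ} (ht : 0 < t)
    {S : ℝ≥0∞} (hS : ∀ q : PMF I, ∫⁻ x, (avg I q x) ^ t ∂π ≤ S) :
    1 ≤ ENNReal.ofReal (Real.exp (t * h)) * S := by
  by_contra hcon
  rw [not_le] at hcon
  have hfr : ∃ᶠ ℓ in atTop, rate I π lam ℓ < (h : EReal) := frequently_lt_of_liminf_lt
    (by isBoundedDefault) hh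
  have htend : Tendsto (fun ℓ : ℕ => (ENNReal.ofReal (Real.exp (t * h)) * S) ^ ℓ) atTop (𝓝 0) :=
    ENNReal.tendsto_pow_atTop_nhds_zero_of_lt_one hcon
  have hpos : (0 : ℝ≥0∞) < ENNReal.ofReal (1 - lam) := by
    rw [ENNReal.ofReal_pos]; linarith
  have hev := (htend.eventually (gt_mem_nhds hpos)).and (eventually_ge_atTop 1)
  obtain ⟨ℓ, hℓ, hlt, hℓ1⟩ := (hfr.and_eventually hev).exists
  have hℓ0 : (0 : ℝ) < ℓ := by exact_mod_cast hℓ1
  -- translate the rate bound
  have h1 : ENNReal.log ((N I π lam ℓ : ℕ∞) : ℝ≥0∞) < ((h * ℓ : ℝ) : EReal) := by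
    unfold rate at hℓ
    rw [EReal.div_lt_iff (by exact_mod_cast hℓ0) (EReal.coe_ne_top _)] at hℓ
    rw [EReal.coe_mul]
    exact hℓ
  have h2 : ((N I π lam ℓ : ℕ∞) : ℝ≥0∞) < ENNReal.ofReal (Real.exp (h * ℓ)) := by
    rw [← ENNReal.log_lt_log_iff, ENNReal.log_ofReal_of_pos (Real.exp_pos _), Real.log_exp]
    exact h1
  -- extract a cover
  obtain ⟨n, hn, B, hB, hcov⟩ : ∃ n : ℕ, (n : ℝ≥0∞) < ENNReal.ofReal (Real.exp (h * ℓ)) ∧
      ∃ B : Fin n → Fin ℓ → Set Ω, (∀ k i, B k i ∈ I) ∧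
      ENNReal.ofReal (1 - lam) ≤ (Measure.pi fun _ : Fin ℓ => π) (⋃ k, Set.univ.pi (B k)) := by
    by_contra hno
    push Not at hno
    have : ENNReal.ofReal (Real.exp (h * ℓ)) ≤ ((N I π lam ℓ : ℕ∞) : ℝ≥0∞) := by
      rcases eq_or_ne (N I π lam ℓ) ⊤ with htop | htop
      · rw [htop]; simp
      · obtain ⟨m, hm⟩ := ENat.ne_top_iff_exists.1 htop
        have hex : ∃ B : Fin m → Fin ℓ → Set Ω, (∀ k i, B k i ∈ I) ∧
            ENNReal.ofReal (1 - lam) ≤
              (Measure.pi fun _ : Fin ℓ => π) (⋃ k, Set.univ.pi (B k)) := by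
          by_contra hnex
          have : ((m + 1 : ℕ) : ℕ∞) ≤ N I π lam ℓ := by
            unfold N
            refine le_iInf fun n => le_iInf fun hn => ?_
            have hmn : m ≤ n := by
              have : N I π lam ℓ ≤ n := by
                unfold N
                exact iInf_le_of_le n (iInf_le_of_le hn le_rfl)
              rw [← hm] at this
              exact_mod_cast this
            have hne : m ≠ n := by
              rintro rfl
              exact hnex hn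
            exact_mod_cast Nat.succ_le_of_lt (lt_of_le_of_ne hmn hne)
          rw [← hm] at this
          have h3 : m + 1 ≤ m := by exact_mod_cast this
          omega
        rw [← hm]
        by_contra hlt'
        rw [not_le] at hlt'
        obtain ⟨B, hB, hcov⟩ := hex
        have := hno m (by simpa using hlt') B hB
        exact absurd hcov (not_le.2 this)
    exact absurd h2 (not_lt.2 this)
  have hb := cover_bound I hI π ht hS B hB
  have h3 : (n : ℝ≥0∞) ^ t ≤ ENNReal.ofReal (Real.exp (t * h)) ^ ℓ := by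
    calc (n : ℝ≥0∞) ^ t ≤ (ENNReal.ofReal (Real.exp (h * ℓ))) ^ t :=
          ENNReal.rpow_le_rpow hn.le ht.le
      _ = ENNReal.ofReal (Real.exp (t * h)) ^ ℓ := by
          rw [ENNReal.ofReal_rpow_of_pos (Real.exp_pos _), ← Real.exp_mul,
            ← ENNReal.ofReal_pow (Real.exp_pos _).le, ← Real.exp_nat_mul]
          congr 2
          ring
  have h4 : ENNReal.ofReal (1 - lam) ≤ (ENNReal.ofReal (Real.exp (t * h)) * S) ^ ℓ := by
    rw [mul_pow]
    exact hcov.trans (hb.trans (by gcongr))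
  exact absurd hlt (not_lt.2 h4)

lemma exists_near (I : Set (Set Ω)) (hI : ∀ J ∈ I, MeasurableSet J) (π : Measure Ω)
    [IsProbabilityMeasure π] {lam : ℝ} (hlam : lam < 1) {h h' : ℝ}
    (hh : Hlow I π lam < (h : EReal)) (hhh : h < h') {t : ℝ} (ht : 0 < t) :
    ∃ q : PMF I, ENNReal.ofReal (Real.exp (-(t * h'))) ≤ ∫⁻ x, (avg I q x) ^ t ∂π := by
  by_contra hno
  push Not at hno
  have h1 := Splus_bound I hI π hlam hh ht (fun q => (hno q).le)
  rw [← ENNReal.ofReal_mul (Real.exp_pos _).le, ← Real.exp_add] at h1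
  have h2 : (1 : ℝ) ≤ Real.exp (t * h + -(t * h')) := by
    have := ENNReal.one_le_ofReal.1 h1
    exact this
  rw [Real.one_le_exp_iff] at h2
  nlinarith

/-- Jensen. -/
lemma jensen (π : Measure Ω) [IsProbabilityMeasure π] (a : Ω → ℝ≥0∞) (ha : Measurable a)
    (ha1 : ∀ x, a x ≤ 1) {s t : ℝ} (ht : 0 < t) (hts : t ≤ s) :
    (∫⁻ x, a x ^ t ∂π) ^ (s / t) ≤ ∫⁻ x, a x ^ s ∂π := by
  have hs : 0 < s := ht.trans_le hts
  have h := eLpNorm'_le_eLpNorm'_of_exponent_le (f := fun x => (a x).toReal) ht hts π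
    ha.ennreal_toReal.aestronglyMeasurable
  have hn : ∀ x, ‖(a x).toReal‖ₑ = a x := by
    intro x
    rw [Real.enorm_eq_ofReal ENNReal.toReal_nonneg, ENNReal.ofReal_toReal]
    exact ne_top_of_le_ne_top ENNReal.one_ne_top (ha1 x)
  simp only [eLpNorm', hn] at h
  have h2 := ENNReal.rpow_le_rpow h hs.le
  rw [← ENNReal.rpow_mul, ← ENNReal.rpow_mul, one_div, one_div, inv_mul_cancel₀ hs.ne',
    ENNReal.rpow_one] at h2
  rw [div_eq_inv_mul]
  exact h2

/-- The convex sets of near-optimal combinations. -/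
def K (I : Set (Set Ω)) (π : Measure Ω) (h : ℝ) (n : ℕ) : Set (PMF I) :=
  {q | ∀ s : ℝ, 1 / ((n : ℝ) + 1) ≤ s → s ≤ 1 →
    ENNReal.ofReal (Real.exp (-(s * h))) ≤ ∫⁻ x, (avg I q x) ^ s ∂π}

lemma K_anti (I : Set (Set Ω)) (π : Measure Ω) (h : ℝ) {m n : ℕ} (hmn : m ≤ n) :
    K I π h n ⊆ K I π h m := by
  intro q hq s hs hs1
  refine hq s (le_trans ?_ hs) hs1
  apply one_div_le_one_div_of_le
  · positivity
  · have : (m : ℝ) ≤ n := by exact_mod_cast hmn
    linarith

lemma K_nonempty (I : Set (Set Ω)) (hI : ∀ J ∈ I, MeasurableSet J) (π : Measure Ω)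
    [IsProbabilityMeasure π] {lam : ℝ} (hlam : lam < 1) {h h' : ℝ}
    (hh : Hlow I π lam < (h : EReal)) (hhh : h < h') (n : ℕ) : (K I π h' n).Nonempty := by
  have ht : (0 : ℝ) < 1 / ((n : ℝ) + 1) := by positivity
  obtain ⟨q, hq⟩ := exists_near I hI π hlam hh hhh ht
  refine ⟨q, fun s hs hs1 => ?_⟩
  have h1 := jensen π (avg I q) (measurable_avg I hI q) (avg_le_one I q) ht hs
  refine le_trans ?_ h1
  refine le_trans ?_ (ENNReal.rpow_le_rpow hq (div_pos (ht.trans_le hs) ht).le)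
  rw [ENNReal.ofReal_rpow_of_pos (Real.exp_pos _), ← Real.exp_mul]
  refine le_of_eq ?_
  congr 2
  field_simp

lemma mid_concave (x y : ℝ≥0∞) {s : ℝ} (hs : 0 < s) (hs1 : s ≤ 1) :
    (x ^ s + y ^ s) / 2 ≤ ((x + y) / 2) ^ s := by
  have h1s : 1 ≤ 1 / s := by rw [le_div_iff₀ hs]; linarith
  have h := ENNReal.rpow_add_le_mul_rpow_add_rpow (x ^ s) (y ^ s) h1s
  rw [← ENNReal.rpow_mul, ← ENNReal.rpow_mul, mul_one_div_cancel hs.ne', ENNReal.rpow_one,
    ENNReal.rpow_one] at h
  have h2 := ENNReal.rpow_le_rpow h hs.le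
  rw [← ENNReal.rpow_mul, one_div_mul_cancel hs.ne', ENNReal.rpow_one,
    ENNReal.mul_rpow_of_nonneg _ _ hs.le, ← ENNReal.rpow_mul] at h2
  rw [ENNReal.div_rpow_of_nonneg _ _ hs.le]
  calc (x ^ s + y ^ s) / 2 ≤ (2 ^ ((1 / s - 1) * s) * (x + y) ^ s) / 2 := by gcongr
    _ = (x + y) ^ s / 2 ^ s := by
        rw [show (1 / s - 1) * s = 1 - s by field_simp]
        rw [ENNReal.rpow_sub _ _ (by norm_num) (by norm_num), ENNReal.rpow_one]
        rw [ENNReal.div_eq_inv_mul, ENNReal.div_eq_inv_mul, ENNReal.div_eq_inv_mul]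
        calc (2 : ℝ≥0∞)⁻¹ * ((2 ^ s)⁻¹ * 2 * (x + y) ^ s)
            = ((2 : ℝ≥0∞)⁻¹ * 2) * ((2 ^ s)⁻¹ * (x + y) ^ s) := by ring
          _ = _ := by rw [ENNReal.inv_mul_cancel (by norm_num) (by norm_num), one_mul]

lemma K_mid (I : Set (Set Ω)) (hI : ∀ J ∈ I, MeasurableSet J) (π : Measure Ω)
    (h : ℝ) (n : ℕ) {q q' r : PMF I} (hq : q ∈ K I π h n)
    (hq' : q' ∈ K I π h n) (hr : ∀ x, avg I r x = (avg I q x + avg I q' x) / 2) :
    r ∈ K I π h n := by
  intro s hs hs1
  have hs0 : 0 < s := lt_of_lt_of_le (by positivity) hs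
  have h1 := hq s hs hs1
  have h2 := hq' s hs hs1
  calc ENNReal.ofReal (Real.exp (-(s * h)))
      = (ENNReal.ofReal (Real.exp (-(s * h))) + ENNReal.ofReal (Real.exp (-(s * h)))) / 2 := by
        rw [ENNReal.add_div, ENNReal.add_halves]
    _ ≤ (∫⁻ x, (avg I q x) ^ s ∂π + ∫⁻ x, (avg I q' x) ^ s ∂π) / 2 := by gcongr
    _ = ∫⁻ x, ((avg I q x) ^ s + (avg I q' x) ^ s) / 2 ∂π := by
        simp only [div_eq_mul_inv]
        rw [lintegral_mul_const' _ _ (by norm_num),
          lintegral_add_left ((measurable_avg I hI q).pow_const _)]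
    _ ≤ ∫⁻ x, (avg I r x) ^ s ∂π := by
        refine lintegral_mono fun x => ?_
        rw [hr x]
        exact mid_concave _ _ hs0 hs1

/-! ### A limit of near-optimal combinations -/

/-- Near-minimal elements of a decreasing sequence of midpoint convex bounded sets of a Hilbert
space converge. -/
lemma hilbert_limit {E : Type*} [NormedAddCommGroup E] [InnerProductSpace ℝ E] [CompleteSpace E]
    (A : ℕ → Set E) (hne : ∀ n, (A n).Nonempty) (hanti : ∀ m n, m ≤ n → A n ⊆ A m)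
    (hb : ∀ n, ∀ x ∈ A n, ‖x‖ ≤ 1)
    (hmid : ∀ n, ∀ x ∈ A n, ∀ y ∈ A n, (1 / 2 : ℝ) • (x + y) ∈ A n) :
    ∃ (u : ℕ → E) (v : E), (∀ n, u n ∈ A n) ∧ Tendsto u atTop (𝓝 v) := by
  classical
  set r : ℕ → ℝ := fun n => sInf ((fun x : E => ‖x‖ ^ 2) '' A n) with hr
  have hbdd : ∀ n, BddBelow ((fun x : E => ‖x‖ ^ 2) '' A n) := by
    intro n
    refine ⟨0, ?_⟩
    rintro _ ⟨x, -, rfl⟩
    positivity
  have hrle : ∀ n, ∀ x ∈ A n, r n ≤ ‖x‖ ^ 2 := fun n x hx =>
    csInf_le (hbdd n) ⟨x, hx, rfl⟩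
  have hmono : Monotone r := by
    intro m n hmn
    refine le_csInf ((hne n).image _) ?_
    rintro _ ⟨x, hx, rfl⟩
    exact hrle m x (hanti m n hmn hx)
  have hr1 : ∀ n, r n ≤ 1 := by
    intro n
    obtain ⟨x, hx⟩ := hne n
    have h1 := hb n x hx
    have h2 := hrle n x hx
    nlinarith [norm_nonneg x]
  have hlim : Tendsto r atTop (𝓝 (⨆ n, r n)) :=
    tendsto_atTop_ciSup hmono ⟨1, by rintro _ ⟨n, rfl⟩; exact hr1 n⟩
  set R := ⨆ n, r n with hR
  have hrR : ∀ n, r n ≤ R := fun n => le_ciSup (f := r) ⟨1, by rintro _ ⟨n, rfl⟩; exact hr1 n⟩ n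
  have hex : ∀ n : ℕ, ∃ x ∈ A n, ‖x‖ ^ 2 < r n + 1 / ((n : ℝ) + 1) := by
    intro n
    have : sInf ((fun x : E => ‖x‖ ^ 2) '' A n) < r n + 1 / ((n : ℝ) + 1) := by
      have : (0 : ℝ) < 1 / ((n : ℝ) + 1) := by positivity
      show r n < _
      linarith
    obtain ⟨_, ⟨x, hx, rfl⟩, hlt⟩ := exists_lt_of_csInf_lt ((hne n).image _) this
    exact ⟨x, hx, hlt⟩
  choose u hu hult using hex
  have hdist : ∀ n m : ℕ, n ≤ m → ‖u n - u m‖ ^ 2 ≤ 2 * (R - r n) + 4 * (1 / ((n : ℝ) + 1)) := by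
    intro n m hnm
    have hpar := parallelogram_law_with_norm ℝ (u n) (u m)
    have hmidn := hrle n _ (hmid n _ (hu n) _ (hanti n m hnm (hu m)))
    rw [norm_smul, mul_pow] at hmidn
    have h1 := hult n
    have h2 := hult m
    have h3 := hrR m
    have h4 : 1 / ((m : ℝ) + 1) ≤ 1 / ((n : ℝ) + 1) := by
      apply one_div_le_one_div_of_le
      · positivity
      · have : (n : ℝ) ≤ m := by exact_mod_cast hnm
        linarith
    have h5 : ‖(1 / 2 : ℝ)‖ ^ 2 = 1 / 4 := by norm_num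
    rw [h5] at hmidn
    nlinarith
  have hb0 : Tendsto (fun n : ℕ => Real.sqrt (2 * (R - r n) + 4 * (1 / ((n : ℝ) + 1)))) atTop
      (𝓝 0) := by
    have h1 : Tendsto (fun n : ℕ => 2 * (R - r n) + 4 * (1 / ((n : ℝ) + 1))) atTop
        (𝓝 (2 * (R - R) + 4 * 0)) := by
      refine Tendsto.add ?_ ?_
      · exact (tendsto_const_nhds.sub hlim).const_mul 2
      · exact tendsto_one_div_add_atTop_nhds_zero_nat.const_mul 4
    have h2 := (Real.continuous_sqrt.tendsto _).comp h1
    simpa [Function.comp_def] using h2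
  have hcau : CauchySeq u := by
    refine cauchySeq_of_le_tendsto_0' (fun n => Real.sqrt (2 * (R - r n) + 4 * (1 / ((n : ℝ) + 1))))
      ?_ hb0
    intro n m hnm
    rw [dist_eq_norm]
    apply Real.le_sqrt_of_sq_le
    exact hdist n m hnm
  obtain ⟨v, hv⟩ := cauchySeq_tendsto_of_complete hcau
  exact ⟨u, v, hu, hv⟩

lemma memLp_avg (I : Set (Set Ω)) (hI : ∀ J ∈ I, MeasurableSet J) (π : Measure Ω)
    [IsProbabilityMeasure π] (q : PMF I) : MemLp (fun x => (avg I q x).toReal) 2 π := by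
  refine MemLp.of_bound (measurable_avg I hI q).ennreal_toReal.aestronglyMeasurable 1 ?_
  refine Eventually.of_forall fun x => ?_
  rw [Real.norm_of_nonneg ENNReal.toReal_nonneg]
  have := ENNReal.toReal_mono ENNReal.one_ne_top (avg_le_one I q x)
  simpa using this

lemma exists_limit (I : Set (Set Ω)) (hI : ∀ J ∈ I, MeasurableSet J) (π : Measure Ω)
    [IsProbabilityMeasure π] {lam : ℝ} (hlam : lam < 1) {h h' : ℝ}
    (hh : Hlow I π lam < (h : EReal)) (hhh : h < h') :
    ∃ (q : ℕ → PMF I) (b : Ω → ℝ≥0∞), Measurable b ∧ (∀ n, q n ∈ K I π h' n) ∧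
      ∀ᵐ x ∂π, Tendsto (fun n => avg I (q n) x) atTop (𝓝 (b x)) := by
  classical
  set U : PMF I → Lp ℝ 2 π := fun q => (memLp_avg I hI π q).toLp _ with hU
  obtain ⟨u, v, hu, huv⟩ := hilbert_limit (fun n => U '' K I π h' n)
    (fun n => (K_nonempty I hI π hlam hh hhh n).image _)
    (fun m n hmn => Set.image_mono (K_anti I π h' hmn))
    (by
      rintro n _ ⟨q, -, rfl⟩
      rw [hU, Lp.norm_toLp]
      have h1 : eLpNorm (fun x => (avg I q x).toReal) 2 π ≤ 1 := by
        have := eLpNorm_le_of_ae_bound (μ := π) (p := 2) (f := fun x => (avg I q x).toReal)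
          (C := 1) (Eventually.of_forall fun x => by
            rw [Real.norm_of_nonneg ENNReal.toReal_nonneg]
            have := ENNReal.toReal_mono ENNReal.one_ne_top (avg_le_one I q x)
            simpa using this)
        simpa using this
      have := ENNReal.toReal_mono ENNReal.one_ne_top h1
      simpa using this)
    (by
      rintro n _ ⟨q, hq, rfl⟩ _ ⟨q', hq', rfl⟩
      obtain ⟨r, hr⟩ := avg_mid I q q'
      refine ⟨r, K_mid I hI π h' n hq hq' hr, ?_⟩
      rw [hU]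
      simp only
      rw [← MemLp.toLp_add, ← MemLp.toLp_const_smul]
      congr 1
      funext x
      simp only [Pi.smul_apply, Pi.add_apply, smul_eq_mul, hr x]
      rw [ENNReal.toReal_div, ENNReal.toReal_add
        (ne_top_of_le_ne_top ENNReal.one_ne_top (avg_le_one I q x))
        (ne_top_of_le_ne_top ENNReal.one_ne_top (avg_le_one I q' x))]
      simp only [ENNReal.toReal_ofNat]
      ring)
  choose q hq hqu using hu
  have hmeas := tendstoInMeasure_of_tendsto_Lp huv
  obtain ⟨ns, hns, hae⟩ := hmeas.exists_seq_tendsto_ae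
  refine ⟨fun k => q (ns k), fun x => liminf (fun k => avg I (q (ns k)) x) atTop,
    Measurable.liminf fun k => measurable_avg I hI _,
    fun k => K_anti I π h' (hns.id_le k) (hq (ns k)), ?_⟩
  have hcoe : ∀ᵐ x ∂π, ∀ k, (u (ns k) : Ω → ℝ) x = (avg I (q (ns k)) x).toReal := by
    rw [ae_all_iff]
    intro k
    have := MemLp.coeFn_toLp (memLp_avg I hI π (q (ns k)))
    rw [← hqu (ns k)]
    exact this
  filter_upwards [hae, hcoe] with x hx hc
  have h1 : Tendsto (fun k => avg I (q (ns k)) x) atTop (𝓝 (ENNReal.ofReal (v x))) := by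
    have h2 := (ENNReal.continuous_ofReal.tendsto _).comp hx
    refine h2.congr fun k => ?_
    simp only [Function.comp]
    rw [hc k, ENNReal.ofReal_toReal]
    exact ne_top_of_le_ne_top ENNReal.one_ne_top (avg_le_one I _ x)
  rw [h1.liminf_eq]
  exact h1

/-! ### The limit has small `φ` -/

lemma nl_limit (y : ℝ≥0∞) (hy : y ≤ 1) :
    Tendsto (fun n : ℕ => (1 - y ^ (1 / ((n : ℝ) + 1))) * ((n : ℝ≥0∞) + 1)) atTop (𝓝 (nl y)) := by
  rcases eq_or_ne y 0 with rfl | hy0
  · rw [nl_zero]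
    have h1 : ∀ n : ℕ, (0 : ℝ≥0∞) ^ (1 / ((n : ℝ) + 1)) = 0 := fun n =>
      ENNReal.zero_rpow_of_pos (by positivity)
    simp only [h1, tsub_zero, one_mul]
    have h2 : Tendsto (fun n : ℕ => ((n + 1 : ℕ) : ℝ≥0∞)) atTop (𝓝 ⊤) :=
      ENNReal.tendsto_nat_nhds_top.comp (tendsto_add_atTop_nat 1)
    refine h2.congr fun n => ?_
    push_cast
    rfl
  · have hyt : y ≠ ⊤ := ne_top_of_le_ne_top ENNReal.one_ne_top hy
    set r : ℝ := y.toReal with hr
    have hyr : y = ENNReal.ofReal r := (ENNReal.ofReal_toReal hyt).symm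
    have hr0 : 0 < r := ENNReal.toReal_pos hy0 hyt
    rw [hyr, nl_ofReal hr0]
    have h1 := tendsto_rpow_sub_one_log hr0
    have h2 : Tendsto (fun n : ℕ => 1 / ((n : ℝ) + 1)) atTop (𝓝[>] 0) := by
      refine tendsto_nhdsWithin_iff.2 ⟨tendsto_one_div_add_atTop_nhds_zero_nat, ?_⟩
      exact Eventually.of_forall fun n => by
        show (0 : ℝ) < 1 / ((n : ℝ) + 1)
        positivity
    have h3 := (ENNReal.continuous_ofReal.tendsto _).comp ((h1.comp h2).neg)
    refine h3.congr fun n => ?_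
    simp only [Function.comp]
    rw [ENNReal.ofReal_rpow_of_pos hr0, ← ENNReal.ofReal_one,
      ← ENNReal.ofReal_sub _ (Real.rpow_nonneg hr0.le _)]
    rw [show ((n : ℝ≥0∞) + ENNReal.ofReal 1) = ENNReal.ofReal ((n : ℝ) + 1) by
      rw [ENNReal.ofReal_add (by positivity) (by positivity)]; simp,
      ← ENNReal.ofReal_mul' (by positivity)]
    congr 1
    rw [one_div, inv_inv]
    ring

lemma phi_le_of_moments (π : Measure Ω) [IsProbabilityMeasure π] (b : Ω → ℝ≥0∞)
    (hb : Measurable b) (hb1 : ∀ᵐ x ∂π, b x ≤ 1) (h : ℝ)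
    (hm : ∀ s : ℝ, 0 < s → s ≤ 1 → ENNReal.ofReal (Real.exp (-(s * h))) ≤ ∫⁻ x, b x ^ s ∂π) :
    phi π b ≤ ENNReal.ofReal h := by
  have h1 : phi π b = ∫⁻ x, liminf (fun n : ℕ =>
      (1 - b x ^ (1 / ((n : ℝ) + 1))) * ((n : ℝ≥0∞) + 1)) atTop ∂π := by
    unfold phi
    refine lintegral_congr_ae ?_
    filter_upwards [hb1] with x hx
    exact (nl_limit (b x) hx).liminf_eq.symm
  rw [h1]
  refine (lintegral_liminf_le fun n => ?_).trans ?_
  · exact (measurable_const.sub (hb.pow_const _)).mul_const _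
  have h2 : ∀ n : ℕ, ∫⁻ x, (1 - b x ^ (1 / ((n : ℝ) + 1))) * ((n : ℝ≥0∞) + 1) ∂π
      ≤ ENNReal.ofReal h := by
    intro n
    set t : ℝ := 1 / ((n : ℝ) + 1) with ht
    have ht0 : 0 < t := by positivity
    have ht1 : t ≤ 1 := by
      rw [ht, div_le_one (by positivity)]
      have : (0 : ℝ) ≤ n := Nat.cast_nonneg n
      linarith
    have hle : ∀ᵐ x ∂π, b x ^ t ≤ 1 := by
      filter_upwards [hb1] with x hx
      exact ENNReal.rpow_le_one hx ht0.le
    have hfin : ∫⁻ x, b x ^ t ∂π ≠ ⊤ := by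
      refine ne_top_of_le_ne_top ENNReal.one_ne_top ?_
      calc ∫⁻ x, b x ^ t ∂π ≤ ∫⁻ _, 1 ∂π := lintegral_mono_ae hle
        _ = 1 := by simp
    rw [lintegral_mul_const' _ _ (by simp),
      lintegral_sub (hb.pow_const _) hfin hle]
    simp only [lintegral_const, measure_univ, mul_one]
    calc (1 - ∫⁻ x, b x ^ t ∂π) * ((n : ℝ≥0∞) + 1)
        ≤ (1 - ENNReal.ofReal (Real.exp (-(t * h)))) * ((n : ℝ≥0∞) + 1) := by
          gcongr
          exact hm t ht0 ht1
      _ ≤ ENNReal.ofReal (t * h) * ((n : ℝ≥0∞) + 1) := by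
          gcongr
          rw [← ENNReal.ofReal_one, ← ENNReal.ofReal_sub _ (Real.exp_pos _).le]
          apply ENNReal.ofReal_le_ofReal
          have := Real.add_one_le_exp (-(t * h))
          linarith
      _ = ENNReal.ofReal h := by
          rw [show ((n : ℝ≥0∞) + 1) = ENNReal.ofReal ((n : ℝ) + 1) by
            rw [ENNReal.ofReal_add (by positivity) (by positivity)]; simp,
            ← ENNReal.ofReal_mul' (by positivity)]
          congr 1
          rw [ht]
          field_simp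
  calc liminf (fun n : ℕ => ∫⁻ x, (1 - b x ^ (1 / ((n : ℝ) + 1))) * ((n : ℝ≥0∞) + 1) ∂π) atTop
      ≤ liminf (fun _ : ℕ => ENNReal.ofReal h) atTop :=
        liminf_le_liminf (Eventually.of_forall h2)
    _ = ENNReal.ofReal h := by simp

lemma moments_limit (I : Set (Set Ω)) (hI : ∀ J ∈ I, MeasurableSet J) (π : Measure Ω)
    [IsProbabilityMeasure π] {h : ℝ} (q : ℕ → PMF I) (b : Ω → ℝ≥0∞)
    (hq : ∀ n, q n ∈ K I π h n) (hlim : ∀ᵐ x ∂π, Tendsto (fun n => avg I (q n) x) atTop (𝓝 (b x)))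
    (s : ℝ) (hs : 0 < s) (hs1 : s ≤ 1) :
    ENNReal.ofReal (Real.exp (-(s * h))) ≤ ∫⁻ x, b x ^ s ∂π := by
  have htend : Tendsto (fun n => ∫⁻ x, (avg I (q n) x) ^ s ∂π) atTop (𝓝 (∫⁻ x, b x ^ s ∂π)) := by
    refine tendsto_lintegral_of_dominated_convergence (fun _ => 1)
      (fun n => (measurable_avg I hI _).pow_const _) ?_ (by simp) ?_
    · intro n
      refine Eventually.of_forall fun x => ?_
      exact ENNReal.rpow_le_one (avg_le_one I _ x) hs.le
    · filter_upwards [hlim] with x hx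
      exact ((ENNReal.continuous_rpow_const (y := s)).tendsto _).comp hx
  refine ge_of_tendsto htend ?_
  have hev : ∀ᶠ n : ℕ in atTop, 1 / ((n : ℝ) + 1) ≤ s := by
    have := tendsto_one_div_add_atTop_nhds_zero_nat (𝕜 := ℝ)
    exact (this.eventually (gt_mem_nhds hs)).mono fun n hn => hn.le
  filter_upwards [hev] with n hn
  exact hq n s hn hs1

lemma nl_ne_top {y : ℝ≥0∞} (hy : y ≠ 0) : nl y ≠ ⊤ := by
  unfold nl
  rw [Ne, EReal.toENNReal_eq_top_iff, EReal.neg_eq_top_iff, ENNReal.log_eq_bot_iff]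
  exact hy

/-- The final mixture. -/
lemma exists_good (I : Set (Set Ω)) (hI : ∀ J ∈ I, MeasurableSet J) (π : Measure Ω)
    [IsProbabilityMeasure π] (q : ℕ → PMF I) (b : Ω → ℝ≥0∞) (hb : Measurable b)
    (hlim : ∀ᵐ x ∂π, Tendsto (fun n => avg I (q n) x) atTop (𝓝 (b x)))
    (hfin : phi π b ≠ ⊤) {η : ℝ} (hη : 0 < η) :
    ∃ d : PMF I, phi π (avg I d) ≤ phi π b + ENNReal.ofReal (3 * η) := by
  classical
  set ρ : ℝ≥0∞ := ENNReal.ofReal (Real.exp (-η)) with hρ
  have hρlt : Real.exp (-η) < 1 := by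
    rw [Real.exp_lt_one_iff]; linarith
  have hρ1 : ρ < 1 := by
    rw [hρ, ← ENNReal.ofReal_one]
    exact (ENNReal.ofReal_lt_ofReal_iff one_pos).2 hρlt
  have hρ0 : ρ ≠ 0 := by
    rw [hρ]; simp [Real.exp_pos]
  have hρt : ρ ≠ ⊤ := ENNReal.ofReal_ne_top
  have hnlρ : nl ρ = ENNReal.ofReal η := by
    rw [hρ, nl_ofReal (Real.exp_pos _), Real.log_exp, neg_neg]
  set ε : ℝ≥0∞ := 1 - ρ with hε
  have hεr : ε = ENNReal.ofReal (1 - Real.exp (-η)) := by
    rw [hε, hρ, ← ENNReal.ofReal_one, ← ENNReal.ofReal_sub _ (Real.exp_pos _).le]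
  have hε0 : ε ≠ 0 := by
    rw [hεr]; simp only [ne_eq, ENNReal.ofReal_eq_zero, not_le]; linarith
  have hε1 : ε ≤ 1 := tsub_le_self
  have hnlε : nl ε ≠ 0 := by
    rw [hεr, nl_ofReal (by linarith)]
    simp only [ne_eq, ENNReal.ofReal_eq_zero, not_le]
    have : Real.log (1 - Real.exp (-η)) < 0 :=
      Real.log_neg (by linarith) (by linarith [Real.exp_pos (-η)])
    linarith
  -- the weights
  set w : ℕ → ℝ≥0∞ := fun j => ρ * ε ^ j with hw
  have hwsum : ∑' j, w j = 1 := by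
    rw [hw, ENNReal.tsum_mul_left, ENNReal.tsum_geometric, hε,
      ENNReal.sub_sub_cancel ENNReal.one_ne_top hρ1.le, ENNReal.mul_inv_cancel hρ0 hρt]
  have hw0 : ∀ j, w j ≠ 0 := fun j => mul_ne_zero hρ0 (pow_ne_zero _ hε0)
  have hw1 : ∀ j, w j ≤ 1 := fun j => by
    calc w j ≤ ∑' j, w j := ENNReal.le_tsum j
      _ = 1 := hwsum
  have hwε : ∀ j, w (j + 1) ≤ ε := fun j => by
    show ρ * ε ^ (j + 1) ≤ ε
    rw [pow_succ, ← mul_assoc]
    refine mul_le_of_le_one_left' ?_
    exact mul_le_one' hρ1.le (pow_le_one' hε1 _)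
  -- positivity and bound of `b`
  have hb1 : ∀ᵐ x ∂π, b x ≤ 1 := by
    filter_upwards [hlim] with x hx
    exact le_of_tendsto' hx fun n => avg_le_one I _ x
  have hnlb : ∀ᵐ x ∂π, nl (b x) < ⊤ := by
    refine ae_lt_top' ?_ hfin
    have : Measurable nl := nl_anti.measurable
    exact (this.comp hb).aemeasurable
  -- the bad sets
  set Sb : ℕ → Set Ω := fun k => {x | avg I (q k) x < ρ * b x} with hSb
  have hSm : ∀ k, MeasurableSet (Sb k) := fun k =>
    measurableSet_lt (measurable_avg I hI _) (hb.const_mul _)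
  have hS0 : Tendsto (fun k => π (Sb k)) atTop (𝓝 0) := by
    have h1 : Tendsto (fun k => ∫⁻ x, (Sb k).indicator 1 x ∂π) atTop (𝓝 (∫⁻ _, 0 ∂π)) := by
      refine tendsto_lintegral_of_dominated_convergence (fun _ => 1)
        (fun n => measurable_one.indicator (hSm n)) ?_ (by simp) ?_
      · intro n
        exact Eventually.of_forall fun x => ind_le_one _ x
      · filter_upwards [hlim, hb1, hnlb] with x hx hx1 hxn
        have hbx : b x ≠ 0 := by
          rintro h0
          rw [h0, nl_zero] at hxn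
          exact absurd hxn (lt_irrefl _)
        have hlt : ρ * b x < b x := by
          calc ρ * b x < 1 * b x := by
                exact ENNReal.mul_lt_mul_left hbx (ne_top_of_le_ne_top ENNReal.one_ne_top hx1) hρ1
            _ = b x := one_mul _
        have hev := hx.eventually (lt_mem_nhds hlt)
        refine tendsto_const_nhds.congr' ?_
        filter_upwards [hev] with n hn
        rw [Set.indicator_of_notMem]
        exact not_lt.2 hn.le
    simp only [lintegral_zero] at h1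
    refine h1.congr fun k => ?_
    exact lintegral_indicator_one (hSm k)
  -- choose the indices
  obtain ⟨e, he0, hesum⟩ := ENNReal.exists_pos_sum_of_countable' (ε := ENNReal.ofReal η)
    (by simpa using hη) ℕ
  have hchoose : ∀ j, ∃ k, π (Sb k) * nl (w (j + 1)) ≤ e j := by
    intro j
    have hpos : 0 < e j / (nl (w (j + 1)) + 1) := by
      refine ENNReal.div_pos (he0 j).ne' ?_
      exact ENNReal.add_ne_top.2 ⟨nl_ne_top (hw0 _), ENNReal.one_ne_top⟩
    obtain ⟨k, hk⟩ := (hS0.eventually (gt_mem_nhds hpos)).exists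
    refine ⟨k, ?_⟩
    calc π (Sb k) * nl (w (j + 1)) ≤ (e j / (nl (w (j + 1)) + 1)) * (nl (w (j + 1)) + 1) := by
          gcongr
          exact le_self_add
      _ = e j := ENNReal.div_mul_cancel (by simp)
          (ENNReal.add_ne_top.2 ⟨nl_ne_top (hw0 _), ENNReal.one_ne_top⟩)
  choose κ hκ using hchoose
  set W : PMF ℕ := ⟨w, by rw [← hwsum]; exact ENNReal.summable.hasSum⟩ with hW
  refine ⟨W.bind fun j => q (κ j), ?_⟩
  have havg : ∀ x, avg I (W.bind fun j => q (κ j)) x = ∑' j, w j * avg I (q (κ j)) x :=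
    fun x => avg_bind I W _ x
  have hpt : ∀ᵐ x ∂π, nl (avg I (W.bind fun j => q (κ j)) x) ≤
      nl ρ + nl (b x) + nl ρ + ∑' j, (Sb (κ j)).indicator 1 x * nl (w (j + 1)) := by
    filter_upwards [hb1] with x hx1
    rw [havg]
    -- key comparison
    have hkey : ∀ j, x ∉ Sb (κ j) → nl (∑' j, w j * avg I (q (κ j)) x) ≤
        nl (w j) + (nl ρ + nl (b x)) := by
      intro j hj
      have h1 : ρ * b x ≤ avg I (q (κ j)) x := not_lt.1 hj
      have h2 : w j * (ρ * b x) ≤ ∑' j, w j * avg I (q (κ j)) x :=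
        le_trans (by gcongr) (ENNReal.le_tsum j)
      calc nl (∑' j, w j * avg I (q (κ j)) x) ≤ nl (w j * (ρ * b x)) := nl_anti h2
        _ ≤ nl (w j) + nl (ρ * b x) := nl_mul _ _ (hw1 j) (mul_le_one' hρ1.le hx1)
        _ ≤ nl (w j) + (nl ρ + nl (b x)) := by
            gcongr
            exact nl_mul _ _ hρ1.le hx1
    by_cases hex : ∃ j, x ∉ Sb (κ j)
    · have hmin := Nat.find_spec hex
      rcases Nat.eq_zero_or_pos (Nat.find hex) with h0 | hpos
      · rw [h0] at hmin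
        refine (hkey 0 hmin).trans ?_
        have : w 0 = ρ := by simp [hw]
        rw [this]
        calc nl ρ + (nl ρ + nl (b x)) = nl ρ + nl (b x) + nl ρ := by ring
          _ ≤ _ := le_self_add
      · obtain ⟨m, hm⟩ : ∃ m, Nat.find hex = m + 1 := ⟨Nat.find hex - 1, by omega⟩
        have hmem : x ∈ Sb (κ m) := by
          by_contra hnm
          have := Nat.find_min' hex hnm
          omega
        rw [hm] at hmin
        refine (hkey (m + 1) hmin).trans ?_
        have h3 : nl (w (m + 1)) ≤ ∑' j, (Sb (κ j)).indicator 1 x * nl (w (j + 1)) := by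
          refine le_trans (le_of_eq ?_) (ENNReal.le_tsum m)
          rw [Set.indicator_of_mem hmem, Pi.one_apply, one_mul]
        calc nl (w (m + 1)) + (nl ρ + nl (b x))
            ≤ (∑' j, (Sb (κ j)).indicator 1 x * nl (w (j + 1))) + (nl ρ + nl (b x)) := by gcongr
          _ = nl ρ + nl (b x) + ∑' j, (Sb (κ j)).indicator 1 x * nl (w (j + 1)) := by ring
          _ ≤ _ := add_le_add le_self_add le_rfl
    · push Not at hex
      have h4 : ∑' j, (Sb (κ j)).indicator 1 x * nl (w (j + 1)) = ⊤ := by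
        refine top_le_iff.1 ?_
        rw [← ENNReal.tsum_const_eq_top_of_ne_zero (α := ℕ) hnlε]
        refine ENNReal.tsum_le_tsum fun j => ?_
        rw [Set.indicator_of_mem (hex j), Pi.one_apply, one_mul]
        exact nl_anti (hwε j)
      rw [h4]
      simp
  have hnlm : Measurable nl := nl_anti.measurable
  unfold phi
  calc ∫⁻ x, nl (avg I (W.bind fun j => q (κ j)) x) ∂π
      ≤ ∫⁻ x, (nl ρ + nl (b x) + nl ρ + ∑' j, (Sb (κ j)).indicator 1 x * nl (w (j + 1))) ∂π :=
        lintegral_mono_ae hpt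
    _ = nl ρ + (∫⁻ x, nl (b x) ∂π) + nl ρ + ∑' j, π (Sb (κ j)) * nl (w (j + 1)) := by
        have hnb : Measurable fun x => nl (b x) := hnlm.comp hb
        have e1 : ∫⁻ x, (nl ρ + nl (b x) + nl ρ +
            ∑' j, (Sb (κ j)).indicator 1 x * nl (w (j + 1))) ∂π =
            ∫⁻ x, (nl ρ + nl (b x) + nl ρ) ∂π +
              ∫⁻ x, ∑' j, (Sb (κ j)).indicator 1 x * nl (w (j + 1)) ∂π :=
          lintegral_add_left (f := fun x => nl ρ + nl (b x) + nl ρ)
            ((measurable_const.add hnb).add measurable_const) _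
        have e2 : ∫⁻ x, (nl ρ + nl (b x) + nl ρ) ∂π = ∫⁻ x, (nl ρ + nl (b x)) ∂π + nl ρ := by
          rw [lintegral_add_right _ measurable_const]
          simp
        have e3 : ∫⁻ x, (nl ρ + nl (b x)) ∂π = nl ρ + ∫⁻ x, nl (b x) ∂π := by
          rw [lintegral_add_right _ hnb]
          simp
        have e4 : ∫⁻ x, ∑' j, (Sb (κ j)).indicator 1 x * nl (w (j + 1)) ∂π =
            ∑' j, π (Sb (κ j)) * nl (w (j + 1)) := by
          rw [lintegral_tsum fun j =>
            ((measurable_one.indicator (hSm _)).mul_const _).aemeasurable]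
          congr 1
          funext j
          rw [lintegral_mul_const _ (measurable_one.indicator (hSm _)),
            lintegral_indicator_one (hSm _)]
        rw [e1, e2, e3, e4]
    _ ≤ nl ρ + (∫⁻ x, nl (b x) ∂π) + nl ρ + ENNReal.ofReal η := by
        gcongr
        exact (ENNReal.tsum_le_tsum hκ).trans hesum.le
    _ = (∫⁻ x, nl (b x) ∂π) + ENNReal.ofReal (3 * η) := by
        rw [hnlρ, show (3 : ℝ) * η = η + η + η by ring, ENNReal.ofReal_add (by positivity) hη.le,
          ENNReal.ofReal_add hη.le hη.le]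
        ring

/-! ### The theorem -/

theorem Hcnt_le_Hlow (I : Set (Set Ω)) (hI : ∀ J ∈ I, MeasurableSet J) (π : Measure Ω)
    [IsProbabilityMeasure π] {lam : ℝ} (hlam : lam < 1) :
    ((Hcnt I π : ℝ≥0∞) : EReal) ≤ Hlow I π lam := by
  by_contra hcon
  rw [not_le] at hcon
  obtain ⟨h, hh, h2⟩ := EReal.lt_iff_exists_real_btwn.1 hcon
  obtain ⟨h', hhh, h3⟩ := EReal.lt_iff_exists_real_btwn.1 h2
  have hhh' : h < h' := by exact_mod_cast hhh
  obtain ⟨q, b, hb, hq, hlim⟩ := exists_limit I hI π hlam hh hhh'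
  have hb1 : ∀ᵐ x ∂π, b x ≤ 1 := by
    filter_upwards [hlim] with x hx
    exact le_of_tendsto' hx fun n => avg_le_one I _ x
  have hphi := phi_le_of_moments π b hb hb1 h'
    (fun s hs hs1 => moments_limit I hI π q b hq hlim s hs hs1)
  have hle : Hcnt I π ≤ ENNReal.ofReal h' := by
    refine le_trans ?_ hphi
    refine ENNReal.le_of_forall_pos_le_add fun η hη hfin => ?_
    obtain ⟨d, hd⟩ := exists_good I hI π q b hb hlim hfin.ne (η := (η : ℝ) / 3) (by
      have : (0 : ℝ) < η := hη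
      positivity)
    refine le_trans (iInf_le _ d) (hd.trans ?_)
    rw [mul_div_cancel₀ _ (by norm_num : (3 : ℝ) ≠ 0), ENNReal.ofReal_coe_nnreal]
  have h0 : 0 ≤ h' := by
    by_contra hneg
    rw [not_le] at hneg
    have h4 := moments_limit I hI π q b hq hlim 1 one_pos le_rfl
    have h5 : ∫⁻ x, b x ^ (1 : ℝ) ∂π ≤ 1 := by
      calc ∫⁻ x, b x ^ (1 : ℝ) ∂π ≤ ∫⁻ _, 1 ∂π := by
            refine lintegral_mono_ae ?_
            filter_upwards [hb1] with x hx
            simpa using hx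
        _ = 1 := by simp
    have h6 := h4.trans h5
    rw [ENNReal.ofReal_le_one, Real.exp_le_one_iff] at h6
    linarith
  have h7 : ((Hcnt I π : ℝ≥0∞) : EReal) ≤ (h' : EReal) := by
    calc ((Hcnt I π : ℝ≥0∞) : EReal) ≤ ((ENNReal.ofReal h' : ℝ≥0∞) : EReal) := by
          exact_mod_cast hle
      _ = (h' : EReal) := by
          rw [EReal.coe_ennreal_ofReal, max_eq_left h0]
  exact absurd h3 (not_lt.2 h7)

lemma mem_VPfull (I : Set (Set Ω)) (hI : ∀ J ∈ I, MeasurableSet J) (π : Measure Ω)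
    [IsProbabilityMeasure π] (q : PMF I) : avg I q ∈ VPfull I π := by
  letI m : MeasurableSpace I := ⊤
  refine ⟨m, q.toMeasure, inferInstance, ?_, ?_⟩
  · have hS : MeasurableSet ((⋃ J ∈ q.support, ({J} : Set I) ×ˢ (J : Set Ω)) : Set (I × Ω)) := by
      refine MeasurableSet.biUnion q.support_countable fun J _ => ?_
      exact MeasurableSet.prod (MeasurableSpace.measurableSet_top) (hI _ J.2)
    refine ⟨_, hS, ?_⟩
    have hnull : (q.toMeasure.prod π) ((q.supportᶜ : Set I) ×ˢ (Set.univ : Set Ω)) = 0 := by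
      rw [Measure.prod_prod, PMF.toMeasure_apply_eq_zero_iff _ MeasurableSpace.measurableSet_top |>.2
        disjoint_compl_right, zero_mul]
    rw [Filter.eventuallyEq_set]
    have : ∀ᵐ p ∂(q.toMeasure.prod π), p ∉ ((q.supportᶜ : Set I) ×ˢ (Set.univ : Set Ω)) := by
      rw [ae_iff]
      simp only [not_not]
      exact hnull
    filter_upwards [this] with p hp
    have hp' : p.1 ∈ q.support := by
      by_contra hn
      exact hp ⟨hn, Set.mem_univ _⟩
    constructor
    · intro h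
      exact Set.mem_biUnion hp' ⟨rfl, h⟩
    · intro h
      obtain ⟨J, hJ, h1, h2⟩ := Set.mem_iUnion₂.1 h
      have : p.1 = J := h1
      show p.2 ∈ (p.1 : Set Ω)
      rw [this]
      exact h2
  · intro x
    rw [PMF.toMeasure_apply _ MeasurableSpace.measurableSet_top]
    unfold avg
    refine tsum_congr fun J => ?_
    by_cases h : x ∈ (J : Set Ω)
    · simp [h]
    · simp [h]

/-- **The answer.** For every probability space `(Ω, π)`, every system `I` of measurable sets and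
every `0 < λ < 1`: `H_full ≤ H_cnt ≤` the lower covering entropy `≤` the upper covering entropy.
Hence there is no system with upper covering entropy `< H_full`. -/
theorem result :
    (∀ (Ω : Type u) [MeasurableSpace Ω] (π : Measure Ω) [IsProbabilityMeasure π]
      (I : Set (Set Ω)), (∀ J ∈ I, MeasurableSet J) → ∀ lam : ℝ, 0 < lam → lam < 1 →
        Hfull I π ≤ Hcnt I π ∧ ((Hcnt I π : ℝ≥0∞) : EReal) ≤ Hlow I π lam ∧
          Hlow I π lam ≤ Hup I π lam) ∧
    ¬ ∃ (Ω : Type u) (_ : MeasurableSpace Ω) (π : Measure Ω) (_ : IsProbabilityMeasure π)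
      (I : Set (Set Ω)) (_ : ∀ J ∈ I, MeasurableSet J) (lam : ℝ), 0 < lam ∧ lam < 1 ∧
        Hup I π lam < ((Hfull I π : ℝ≥0∞) : EReal) := by
  have main : ∀ (Ω : Type u) [MeasurableSpace Ω] (π : Measure Ω) [IsProbabilityMeasure π]
      (I : Set (Set Ω)), (∀ J ∈ I, MeasurableSet J) → ∀ lam : ℝ, 0 < lam → lam < 1 →
        Hfull I π ≤ Hcnt I π ∧ ((Hcnt I π : ℝ≥0∞) : EReal) ≤ Hlow I π lam ∧
          Hlow I π lam ≤ Hup I π lam := by
    intro Ω _ π _ I hI lam _ hlam1
    refine ⟨?_, Hcnt_le_Hlow I hI π hlam1, liminf_le_limsup (by isBoundedDefault)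
      (by isBoundedDefault)⟩
    exact le_iInf fun q => iInf₂_le (avg I q) (mem_VPfull I hI π q)
  refine ⟨main, ?_⟩
  rintro ⟨Ω, _, π, _, I, hI, lam, h0, h1, hlt⟩
  obtain ⟨h2, h3, h4⟩ := main Ω π I hI lam h0 h1
  have h5 : ((Hfull I π : ℝ≥0∞) : EReal) ≤ ((Hcnt I π : ℝ≥0∞) : EReal) := by exact_mod_cast h2
  exact absurd hlt (not_lt.2 (h5.trans (h3.trans h4)))

end Pool.Agent.Results.MP_87c4bd_co.CoveringEntropy
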